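import Mathlib
import Pool.Agent.Q50.SP.NoOv

/-!
# A spectral self-similar measure without overlap and without Hadamard triple

The definitions `IsExpanding`, `IsSelfAffine`, `IsSpectral`, `IsAttractor`, `NoOverlap`,
`IsHadamardTriple` are those of the problem (see `Pool.Agent.Q50.SP.Defs`).
The measure `μ(12, {0, 1, 8, 9})` on the line is spectral and has no overlap, but no set `L` of
integers makes `(12, {0, 1, 8, 9}, L)` a Hadamard triple.
-/

set_option autoImplicit false

namespace Pool.Agent.Results.MP_a3bfa4_an.NoHadamardTriple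

open MeasureTheory Q50.SelfAffine

/-- There is a self-affine measure `μ(R, B)` (with `d = 1`, `R = 12`, `B = {0, 1, 8, 9}`) which is
spectral and has no overlap, although no finite `L ⊆ ℤ` makes `(R, B, L)` a Hadamard triple. -/
theorem result : ∃ (R : Matrix (Fin 1) (Fin 1) ℤ) (B : Finset (Fin 1 → ℤ))
    (μ : Measure (Fin 1 → ℝ)),
    R = (fun _ _ => 12) ∧ B = {fun _ => 0, fun _ => 1, fun _ => 8, fun _ => 9} ∧
    IsExpanding R ∧ IsSelfAffine R B μ ∧ IsSpectral μ ∧ NoOverlap R B μ ∧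
    ∀ L : Finset (Fin 1 → ℤ), ¬ IsHadamardTriple R B L := by
  refine ⟨Q50.SP.RS, Q50.SP.BS, Q50.SP.mv, rfl, ?_, Q50.SP.root_gt, Q50.SP.isSelfAffine_mv,
    Q50.SP.isSpectral_mv, Q50.SP.noOverlap_mv, Q50.SP.no_hadamard⟩
  ext b
  simp only [Q50.SP.BS, Finset.mem_map, Finset.mem_univ, true_and,
    Function.Embedding.coeFn_mk, Finset.mem_insert, Finset.mem_singleton]
  constructor
  · rintro ⟨i, rfl⟩
    fin_cases i
    · exact Or.inl rfl
    · exact Or.inr (Or.inl rfl)
    · exact Or.inr (Or.inr (Or.inl rfl))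
    · exact Or.inr (Or.inr (Or.inr rfl))
  · rintro (rfl | rfl | rfl | rfl)
    · exact ⟨0, rfl⟩
    · exact ⟨1, rfl⟩
    · exact ⟨2, rfl⟩
    · exact ⟨3, rfl⟩

end Pool.Agent.Results.MP_a3bfa4_an.NoHadamardTriple
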