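import Pool.Statements.S04820
import Pool.Agent.Q50.SP.Vec

set_option autoImplicit false
open MeasureTheory Matrix
open scoped ENNReal Real
open Pool Pool.MP_5f557b_an

namespace Pool.Agent.S04820

/-- The negation of the preceding statement: For expanding integer R and simple digits B with 0 in B, 2 ≤ #B < ∣det R∣ and ℤ[R,B] = ℤ^d: if the self-affine measure has an orthonormal basis of exponentials, then some L in ℤ^d with #L = #B makes (R,B,L) a Hadamard triple. -/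
theorem result :
    ¬ (∀ (d : ℕ), 1 ≤ d → ∀ (R : Matrix (Fin d) (Fin d) ℤ) (B : Finset (Fin d → ℤ)),
    (∀ z : ℂ, (R.map (Int.cast : ℤ → ℂ)).charpoly.IsRoot z → 1 < ‖z‖) →
    (∀ b ∈ B, ∀ b' ∈ B, b ≠ b' → ¬ ∃ v : Fin d → ℤ, R *ᵥ v = b - b') →
    2 ≤ B.card → (B.card : ℤ) < |R.det| → (0 : Fin d → ℤ) ∈ B →
    AddSubgroup.closure {v : Fin d → ℤ | ∃ k : ℕ, ∃ b ∈ B, v = (R ^ k) *ᵥ b} = ⊤ →
    ∀ μ : Measure (Fin d → ℝ), IsProbabilityMeasure μ →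
      μ = ((B.card : ℝ≥0∞)⁻¹) • ∑ b ∈ B,
            μ.map (fun x => (R.map (Int.cast : ℤ → ℝ))⁻¹ *ᵥ (x + fun i => (b i : ℝ))) →
      (∃ Λ : Set (Fin d → ℝ),
        (∀ l ∈ Λ, ∀ l' ∈ Λ,
          (l = l' → ∫ x, Complex.exp (2 * π * Complex.I * ((∑ i, (l i - l' i) * x i : ℝ) : ℂ)) ∂μ = 1) ∧
          (l ≠ l' → ∫ x, Complex.exp (2 * π * Complex.I * ((∑ i, (l i - l' i) * x i : ℝ) : ℂ)) ∂μ = 0)) ∧
        (∀ f : (Fin d → ℝ) → ℂ, MemLp f 2 μ →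
          (∀ l ∈ Λ, ∫ x, f x * Complex.exp (-(2 * π * Complex.I * ((∑ i, l i * x i : ℝ) : ℂ))) ∂μ = 0) →
          f =ᵐ[μ] 0)) →
      ∃ L : Finset (Fin d → ℤ), L.card = B.card ∧
        ∀ l ∈ L, ∀ l' ∈ L,
          (l = l' → ∑ b ∈ B, Complex.exp (2 * π * Complex.I *
              ((∑ i, ((R.map (Int.cast : ℤ → ℝ))⁻¹ *ᵥ (fun j => (b j : ℝ))) i * ((l i : ℝ) - (l' i : ℝ)) : ℝ) : ℂ))
              = (B.card : ℂ)) ∧
          (l ≠ l' → ∑ b ∈ B, Complex.exp (2 * π * Complex.I *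
              ((∑ i, ((R.map (Int.cast : ℤ → ℝ))⁻¹ *ᵥ (fun j => (b j : ℝ))) i * ((l i : ℝ) - (l' i : ℝ)) : ℝ) : ℂ))
              = 0)) := by
  intro H
  refine Q50.SP.no_triple (H 1 le_rfl Q50.SP.RS Q50.SP.BS Q50.SP.root_gt Q50.SP.simple_digits ?_ ?_
    ?_ Q50.SP.closure_top Q50.SP.mv inferInstance Q50.SP.mv_self
    ⟨Q50.SP.v1 '' (⋃ n, (Q50.SP.Lam n : Set ℝ)), ?_, Q50.SP.complete_mv⟩)
  · rw [Q50.SP.card_BS]; norm_num
  · rw [Q50.SP.card_BS, Q50.SP.RS_det]; norm_num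
  · simp only [Q50.SP.BS, Finset.mem_map, Finset.mem_univ, true_and,
      Function.Embedding.coeFn_mk]
    exact ⟨0, rfl⟩
  · rintro _ ⟨a, ha, rfl⟩ _ ⟨b, hb, rfl⟩
    have h1 := Q50.SP.integral_mv (a - b)
    have h2 : (∫ x, Complex.exp (2 * π * Complex.I *
        ((∑ i, (Q50.SP.v1 a i - Q50.SP.v1 b i) * x i : ℝ) : ℂ)) ∂Q50.SP.mv) =
        Q50.SP.ft Q50.SP.m12 (a - b) := h1
    rw [h2]
    refine ⟨fun h => ?_, fun h => ?_⟩
    · have h3 : a = b := congrFun h 0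
      rw [h3, sub_self, Q50.SP.ft_zero]
    · exact Q50.SP.m12_isSpec.1 a ha b hb (fun h3 => h (by rw [h3]))

end Pool.Agent.S04820
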